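import Pool.Agent.Y243.SDual.Exp

/-!
The worst-case asummability order for all switching functions and for the self-dual ones:
`M (n - 2) ≤ Msd n ≤ M n`, and both logarithms are `(n / 2) log n` up to lower order terms.
-/

set_option autoImplicit false

namespace Pool.Agent.Results.MP_96963f_co.SelfDualExponent

open Filter Topology

/-- `f` is weighted threshold: true exactly when the weighted sum reaches the quota. -/
def IsThreshold {n : ℕ} (f : (Fin n → Bool) → Bool) : Prop :=
  ∃ (w : Fin n → ℝ) (q : ℝ), ∀ x : Fin n → Bool, f x = true ↔ q ≤ ∑ i, w i * (x i).toNat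

/-- `f` is `k`-summable: `k` true vectors and `k` false vectors (repetitions allowed) with the
same sum in every coordinate. -/
def KSummable {n : ℕ} (k : ℕ) (f : (Fin n → Bool) → Bool) : Prop :=
  ∃ x y : Fin k → (Fin n → Bool), (∀ j, f (x j) = true) ∧ (∀ j, f (y j) = false) ∧
    ∀ i, ∑ j, (x j i).toNat = ∑ j, (y j i).toNat

/-- `f` is `m`-asummable: not `k`-summable for any `k` in `1, ..., m`. -/
def Asummable {n : ℕ} (m : ℕ) (f : (Fin n → Bool) → Bool) : Prop :=
  ∀ k, 1 ≤ k → k ≤ m → ¬ KSummable k f

/-- `f` is self-dual: `f` takes opposite values at complementary vectors. -/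
def IsSelfDual {n : ℕ} (f : (Fin n → Bool) → Bool) : Prop := ∀ x, f (fun i => !x i) = !f x

/-- the least `m` such that every `m`-asummable switching function on `n` variables is weighted
threshold -/
noncomputable def M (n : ℕ) : ℕ :=
  sInf {m | ∀ f : (Fin n → Bool) → Bool, Monotone f → Asummable m f → IsThreshold f}

/-- the least `m` such that every `m`-asummable self-dual switching function on `n` variables is
weighted threshold -/
noncomputable def Msd (n : ℕ) : ℕ :=
  sInf {m | ∀ f : (Fin n → Bool) → Bool, Monotone f → IsSelfDual f → Asummable m f →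
    IsThreshold f}

lemma M_eq (n : ℕ) : M n = SharpExponent.M n := rfl

lemma Msd_eq (n : ℕ) : Msd n = Pool.Agent.Y243.SDual.Msd n := rfl

/-- For all `n`: every switching function on `n` variables that is asummable of order
`√((n+2)^(n+4))` is weighted, so `M n` and `Msd n` are well defined; `Msd n ≤ M n ≤ Msd (n + 2)`;
`log (Msd n)` and `log (M n)` lie between `(n / 2) log n - n log log n - 22 n` and
`((n + 4) / 2) log (n + 2)` for `n ≥ 2 ^ 65`; both are asymptotic to `(n / 2) log n`. -/
theorem result :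
    (∀ (n : ℕ) (f : (Fin n → Bool) → Bool), Monotone f →
      Asummable (Nat.sqrt ((n + 2) ^ (n + 4))) f → IsThreshold f) ∧
    (∀ n : ℕ, Msd n ≤ M n ∧ M n ≤ Msd (n + 2)) ∧
    (∀ n : ℕ, 2 ^ 65 ≤ n →
      (n : ℝ) / 2 * Real.log n - n * Real.log (Real.log n) - 22 * n ≤ Real.log (Msd n) ∧
      Real.log (Msd n) ≤ Real.log (M n) ∧
      Real.log (M n) ≤ ((n : ℝ) + 4) / 2 * Real.log ((n : ℝ) + 2)) ∧
    Tendsto (fun n : ℕ => Real.log (Msd n) / ((n : ℝ) * Real.log n)) atTop (𝓝 (1 / 2)) ∧
    Tendsto (fun n : ℕ => Real.log (M n) / ((n : ℝ) * Real.log n)) atTop (𝓝 (1 / 2)) := by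
  refine ⟨fun n f hf ha => SharpExponent.certifies_upper n f hf ha,
    fun n => ⟨Pool.Agent.Y243.SDual.Msd_le n, Pool.Agent.Y243.SDual.le_Msd n⟩,
    fun n hn => ⟨Pool.Agent.Y243.SDual.log_lower_sd hn, ?_,
      SharpExponent.log_upper (le_trans (Nat.pow_le_pow_right (by norm_num) (by norm_num)) hn)⟩,
    Pool.Agent.Y243.SDual.limit_sd, SharpExponent.main_limit⟩
  rcases Nat.eq_zero_or_pos (Msd n) with h | h
  · rw [h]
    simp only [Nat.cast_zero, Real.log_zero]
    exact Real.log_natCast_nonneg _
  · apply Real.log_le_log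
    · exact_mod_cast h
    · exact_mod_cast Pool.Agent.Y243.SDual.Msd_le n

end Pool.Agent.Results.MP_96963f_co.SelfDualExponent
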